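import Pool.Agent.Helper66_D2.Tool
import Pool.Agent.Helper94_PP.StmtsKR

/-!
# LFU: lifting a rank one idempotent
-/

open scoped BigOperators

noncomputable section

namespace Pool.Agent.PP.CD2.H19

open Pool.Agent.PP Pool.Agent.Helper51_AWC Pool.Agent.Helper79_WRA Pool.Agent.PP.H20

variable {F : Type} [Field F] {G : Type} [Group G] [Finite G]

/-- An element under `b` which vanishes at the only irreducible representation is nilpotent. -/
theorem nil_of_ev (hibn : IbnStmt) (hibc : IbcStmt) (heig : EigStmt) {ℓ : ℕ} (hF : GoodF ℓ F)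
    {b : G → F} (hb : IsIdem b) {k : ℕ} {σ : G →* Matrix (Fin k) (Fin k) F} (hσ : Uq b σ)
    {a : G → F} (hba : mulF b a = a) (ha : ev σ a = 0) : ∃ m : ℕ, toMA a ^ m = 0 := by
  obtain ⟨m, hm⟩ := hibn ℓ F hF G a (by
    intro n τ hτ
    obtain ⟨w, hw, -, h01⟩ := heig F G n τ hτ b hb.1
    rcases h01 hb with h0 | h1
    · rw [← hba, ev_mulF, hw, h0, map_zero, zero_mul]
    · have h2 : ev τ b = 1 := by rw [hw, h1, map_one]
      have h3 := hσ.uniq n τ hτ h2
      obtain ⟨X, Y, -, -, hYX, hX⟩ := hibc ℓ F hF G n k τ σ hτ hσ.irr h3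
      have h5 : X * ev τ a = ev σ a * X := by
        have := Fintype.ofFinite G
        rw [ev, ev, finsum_eq_sum_of_fintype, finsum_eq_sum_of_fintype, Matrix.mul_sum,
          Matrix.sum_mul]
        refine Finset.sum_congr rfl fun t _ => ?_
        rw [Matrix.mul_smul, Matrix.smul_mul, hX]
      rw [ha, Matrix.zero_mul] at h5
      have h6 : Y * (X * ev τ a) = 0 := by rw [h5, Matrix.mul_zero]
      rwa [← Matrix.mul_assoc, hYX, Matrix.one_mul] at h6)
  refine ⟨m + 1, ?_⟩
  have h7 : toMA ((mulF a)^[m] a) = toMA a ^ m * toMA a := H66.toMA_pwF a a m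
  rw [hm, toMA_zero] at h7
  rw [pow_succ, ← h7]

open Polynomial in
/-- Lifting idempotents by a polynomial. -/
theorem lift_idem {A : Type*} [Ring A] [Algebra F A] (a : A) (m : ℕ) (h : (a * (1 - a)) ^ m = 0) :
    ∃ p : F[X], IsIdempotentElem (aeval a p) ∧ (∃ q : F[X], p = X * q) ∧
      ∀ (B : Type) [Ring B] [Algebra F B] (e : B), e * e = e → aeval e p = e := by
  set n := m + 1 with hn
  have h' : (a * (1 - a)) ^ n = 0 := by rw [hn, pow_succ, h, zero_mul]
  let P : F[X] := 1 - (1 - X ^ n) ^ n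
  have h1 : (X ^ n : F[X]) ∣ P := by
    have := sub_dvd_pow_sub_pow (1 : F[X]) (1 - X ^ n) n
    rwa [one_pow, sub_sub_cancel] at this
  have h2 : ((1 - X) ^ n : F[X]) ∣ 1 - P := by
    have h3 : (1 - X : F[X]) ∣ 1 - X ^ n := by
      have := sub_dvd_pow_sub_pow (1 : F[X]) X n
      rwa [one_pow] at this
    have h4 : 1 - P = (1 - X ^ n) ^ n := by
      show 1 - (1 - (1 - X ^ n) ^ n) = _
      ring
    rw [h4]
    exact pow_dvd_pow_of_dvd h3 n
  obtain ⟨u, hu⟩ := h1
  obtain ⟨v, hv⟩ := h2
  refine ⟨P, ?_, ⟨X ^ m * u, by rw [hu, hn, pow_succ]; ring⟩, ?_⟩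
  · clear_value P
    have h5 : P * (1 - P) = (X * (1 - X)) ^ n * (u * v) := by
      rw [hv, mul_pow, hu]
      ring
    have h6 := congrArg (aeval a) h5
    have h7 : aeval a ((X * (1 - X)) ^ n : F[X]) = 0 := by
      rw [map_pow, map_mul, map_sub, map_one, aeval_X, h']
    rw [map_mul, map_mul, h7, zero_mul, map_sub, map_one, mul_sub, mul_one, sub_eq_zero] at h6
    exact h6.symm
  · intro B _ _ e he
    have hp : ∀ j : ℕ, e ^ (j + 1) = e := by
      intro j
      induction j with
      | zero => rw [zero_add, pow_one]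
      | succ j ih => rw [pow_succ, ih, he]
    have hq : ∀ j : ℕ, (1 - e) ^ (j + 1) = 1 - e := by
      intro j
      induction j with
      | zero => rw [zero_add, pow_one]
      | succ j ih =>
        rw [pow_succ, ih]
        rw [mul_sub, mul_one, sub_mul, one_mul, he, sub_self, sub_zero]
    show aeval e (1 - (1 - X ^ n) ^ n) = e
    rw [map_sub, map_one, map_pow, map_sub, map_one, map_pow, aeval_X, hn, hp, hq, sub_sub_cancel]

theorem rank_single (k : ℕ) (i : Fin k) : (Matrix.single i i (1 : F)).rank = 1 := by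
  apply le_antisymm
  · rw [Matrix.single_eq_single_vecMulVec_single]
    exact Matrix.rank_vecMulVec_le _ _
  · rw [Nat.one_le_iff_ne_zero]
    intro h
    have h1 : (Matrix.single i i (1 : F)) = 0 := by
      unfold Matrix.rank at h
      rw [Submodule.finrank_eq_zero, LinearMap.range_eq_bot] at h
      ext u v
      have h3 := congrFun (LinearMap.congr_fun h (Pi.single v 1)) u
      rwa [Matrix.mulVecLin_apply, Matrix.mulVec_single_one] at h3
    have h2 := congrFun (congrFun h1 i) i
    rw [Matrix.single_apply_same, Matrix.zero_apply] at h2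
    exact one_ne_zero h2

theorem lfu (hibn : IbnStmt) (hibc : IbcStmt) (heig : EigStmt) : LfuStmt := by
  intro ℓ F _ hF G _ _ b hb k σ hσ
  have := Fintype.ofFinite G
  have hbb : toMA b * toMA b = toMA b := by rw [← toMA_mulF, hb.2]
  let Φ := MonoidAlgebra.lift F (Matrix (Fin k) (Fin k) F) G σ
  have hΦ : ∀ a : G → F, Φ (toMA a) = ev σ a := lift_toMA σ
  have hsur : Function.Surjective Φ := (lift_surjective σ).2 hσ.irr.2
  have hΦb : Φ (toMA b) = 1 := by rw [hΦ, hσ.one]
  have hnil : ∀ x : MonoidAlgebra F G, toMA b * x = x → Φ x = 0 → ∃ m : ℕ, x ^ m = 0 := by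
    intro x hx hx0
    obtain ⟨a, rfl⟩ := toMA_surjective x
    refine nil_of_ev hibn hibc heig hF hb hσ (a := a) ?_ ?_
    · apply toMA_injective
      rw [toMA_mulF, hx]
    · rw [← hΦ, hx0]
  have hk := hσ.irr.1
  let z : Fin k := ⟨0, hk⟩
  -- the idempotent
  obtain ⟨a₀, ha₀⟩ := hsur (Matrix.single z z 1)
  let a := toMA b * a₀
  have hba : toMA b * a = a := by
    show toMA b * (toMA b * a₀) = toMA b * a₀
    rw [← mul_assoc, hbb]
  have hΦa : Φ a = Matrix.single z z 1 := by
    show Φ (toMA b * a₀) = _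
    rw [map_mul, hΦb, one_mul, ha₀]
  have hEE : (Matrix.single z z 1 : Matrix (Fin k) (Fin k) F) * Matrix.single z z 1 =
      Matrix.single z z 1 := by
    rw [Matrix.single_mul_single_same, one_mul]
  obtain ⟨m, hm⟩ := hnil (a * (1 - a)) (by rw [← mul_assoc, hba]) (by
    rw [map_mul, map_sub, map_one, hΦa, mul_sub, mul_one, hEE, sub_self])
  obtain ⟨p, hp1, ⟨q, hq⟩, hp2⟩ := lift_idem (F := F) a m hm
  set i := Polynomial.aeval a p with hi
  have hbi : toMA b * i = i := by
    rw [hi, hq, map_mul, Polynomial.aeval_X, ← mul_assoc, hba]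
  have hΦi : Φ i = Matrix.single z z 1 := by
    rw [hi, ← Polynomial.aeval_algHom_apply, hΦa]
    exact hp2 _ _ hEE
  obtain ⟨i', hi'⟩ := toMA_surjective i
  -- FULL
  choose X hX using fun j : Fin k => hsur (Matrix.single j z 1)
  choose Y hY using fun j : Fin k => hsur (Matrix.single z j 1)
  let s := ∑ j, X j * (i * Y j)
  have hΦs : Φ s = 1 := by
    show Φ (∑ j, X j * (i * Y j)) = 1
    rw [map_sum]
    have h1 : ∀ j : Fin k, Φ (X j * (i * Y j)) = Matrix.single j j 1 := by
      intro j
      rw [map_mul, map_mul, hX, hΦi, hY, Matrix.single_mul_single_same,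
        Matrix.single_mul_single_same, one_mul, one_mul]
    rw [Finset.sum_congr rfl fun j _ => h1 j]
    ext u v
    rw [Matrix.sum_apply, Matrix.one_apply]
    simp only [Matrix.single_apply]
    by_cases huv : u = v
    · subst huv
      rw [if_pos rfl, Finset.sum_eq_single u]
      · rw [if_pos ⟨rfl, rfl⟩]
      · intro j _ hj
        rw [if_neg fun h => hj h.1]
      · intro h
        exact absurd (Finset.mem_univ _) h
    · rw [if_neg huv]
      refine Finset.sum_eq_zero fun j _ => ?_
      rw [if_neg]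
      rintro ⟨rfl, rfl⟩
      exact huv rfl
  let ν := toMA b - toMA b * s
  have hbν : toMA b * ν = ν := by
    show toMA b * (toMA b - toMA b * s) = toMA b - toMA b * s
    rw [mul_sub, hbb, ← mul_assoc, hbb]
  obtain ⟨r, hr⟩ := hnil ν hbν (by
    show Φ (toMA b - toMA b * s) = 0
    rw [map_sub, map_mul, hΦb, hΦs, one_mul, sub_self])
  let t := ∑ j ∈ Finset.range r, ν ^ j
  have ht : (1 - ν) * t = 1 := by
    have := mul_neg_geom_sum ν r
    rw [hr, sub_zero] at this
    exact this
  have hbst : toMA b * s * t = toMA b := by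
    have h1 : toMA b * s = toMA b * (1 - ν) := by
      rw [mul_sub, mul_one, hbν]
      show toMA b * s = toMA b - (toMA b - toMA b * s)
      rw [sub_sub_cancel]
    rw [h1, mul_assoc, ht, mul_one]
  clear_value t
  choose x hx using fun j : Fin k => toMA_surjective (toMA b * X j)
  choose y hy using fun j : Fin k => toMA_surjective (Y j * t)
  refine ⟨i', ?_, ?_, ?_, k, x, y, ?_⟩
  · apply toMA_injective
    rw [toMA_mulF, hi']
    exact hp1
  · apply toMA_injective
    rw [toMA_mulF, hi', hbi]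
  · rw [← hΦ, hi', hΦi]
    exact rank_single k z
  · apply toMA_injective
    rw [H66.toMA_sum]
    simp only [toMA_mulF]
    rw [← hbst]
    show ∑ j, toMA (x j) * (toMA i' * toMA (y j)) = toMA b * (∑ j, X j * (i * Y j)) * t
    rw [Finset.mul_sum, Finset.sum_mul]
    refine Finset.sum_congr rfl fun j _ => ?_
    rw [hx, hy, hi']
    simp only [mul_assoc]

end Pool.Agent.PP.CD2.H19
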